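import Mathlib

set_option autoImplicit false

open Matrix

namespace Pool.Agent.Results.MP_847604_al.SpecialLinearPadic

section Ring

variable {R : Type} [CommRing R]

/-- The matrix with rows `(a, b)` and `(c, d)`. -/
def mk (a b c d : R) (h : a * d - b * c = 1) : SpecialLinearGroup (Fin 2) R :=
  ⟨!![a, b; c, d], by rw [Matrix.det_fin_two_of]; exact h⟩

theorem mk_congr {a b c d a' b' c' d' : R} (h : a * d - b * c = 1) (h' : a' * d' - b' * c' = 1)
    (ha : a = a') (hb : b = b') (hc : c = c') (hd : d = d') : mk a b c d h = mk a' b' c' d' h' := by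
  subst ha hb hc hd
  rfl

theorem eq_mk (g : SpecialLinearGroup (Fin 2) R) :
    ∃ (a b c d : R) (h : a * d - b * c = 1), g = mk a b c d h := by
  refine ⟨g.1 0 0, g.1 0 1, g.1 1 0, g.1 1 1, ?_, ?_⟩
  · have := g.2
    rwa [Matrix.det_fin_two] at this
  · apply Subtype.ext
    exact Matrix.eta_fin_two g.1

theorem mk_mul {a b c d a' b' c' d' : R} (h : a * d - b * c = 1) (h' : a' * d' - b' * c' = 1) :
    mk a b c d h * mk a' b' c' d' h' =
      mk (a * a' + b * c') (a * b' + b * d') (c * a' + d * c') (c * b' + d * d')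
        (by linear_combination (a' * d' - b' * c') * h + h') := by
  apply Subtype.ext
  change (!![a, b; c, d] * !![a', b'; c', d'] : Matrix (Fin 2) (Fin 2) R) = _
  rw [Matrix.mul_fin_two]
  rfl

theorem mk_inv {a b c d : R} (h : a * d - b * c = 1) :
    (mk a b c d h)⁻¹ = mk d (-b) (-c) a (by linear_combination h) := by
  apply Subtype.ext
  change Matrix.adjugate !![a, b; c, d] = _
  rw [Matrix.adjugate_fin_two_of]
  rfl

theorem mk_one : (1 : SpecialLinearGroup (Fin 2) R) = mk 1 0 0 1 (by ring) := by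
  apply Subtype.ext
  simp [mk, Matrix.one_fin_two]

theorem mk_neg_one : (-1 : SpecialLinearGroup (Fin 2) R) = mk (-1) 0 0 (-1) (by ring) := by
  apply Subtype.ext
  rw [SpecialLinearGroup.coe_neg]
  ext i j
  fin_cases i <;> fin_cases j <;> simp [mk]

/-- The elementary matrix with upper right entry `x`. -/
def eu (x : R) : SpecialLinearGroup (Fin 2) R := mk 1 x 0 1 (by ring)

/-- The elementary matrix with lower left entry `x`. -/
def el (x : R) : SpecialLinearGroup (Fin 2) R := mk 1 0 x 1 (by ring)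

theorem eu_mul (x y : R) : eu x * eu y = eu (x + y) := by
  unfold eu
  rw [mk_mul]
  apply mk_congr <;> ring

theorem el_mul (x y : R) : el x * el y = el (x + y) := by
  unfold el
  rw [mk_mul]
  apply mk_congr <;> ring

theorem eu_inv (x : R) : (eu x)⁻¹ = eu (-x) := by
  unfold eu
  rw [mk_inv]
  apply mk_congr <;> ring

variable {N : Subgroup (SpecialLinearGroup (Fin 2) R)}

/-- An upper triangular element of `N`. -/
theorem eu_mem_of_upper (hN : N.Normal) {a b d : R} (h : a * d - b * 0 = 1)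
    (hm : mk a b 0 d h ∈ N) : eu (a ^ 2 - 1) ∈ N := by
  have h1 := N.mul_mem hm (hN.conj_mem _ (N.inv_mem hm) (eu 1))
  have h2 : mk a b 0 d h * (eu 1 * (mk a b 0 d h)⁻¹ * (eu 1)⁻¹) = eu (a ^ 2 - 1) := by
    rw [eu_inv, mk_inv]
    unfold eu
    rw [mk_mul, mk_mul, mk_mul]
    apply mk_congr
    · linear_combination h
    · linear_combination (-(1 : R)) * h
    · ring
    · linear_combination h
  rwa [h2] at h1

theorem eu_mem_of_upper' (hN : N.Normal) {a b c d : R} (h : a * d - b * c = 1) (hc : c = 0)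
    (hm : mk a b c d h ∈ N) : eu (a ^ 2 - 1) ∈ N := by
  subst hc
  exact eu_mem_of_upper hN h hm

/-- The conjugate of an element of `N`. -/
theorem lower_left_ne (hN : N.Normal) {a b c d : R} (h : a * d - b * c = 1)
    (hm : mk a b c d h ∈ N) : mk d (-c) (-b) a (by linear_combination h) ∈ N := by
  have h1 := hN.conj_mem _ hm (mk 0 1 (-1) 0 (by ring))
  have h2 : mk 0 1 (-1) 0 (by ring) * mk a b c d h * (mk 0 1 (-1) 0 (by ring))⁻¹ =
      mk d (-c) (-b) a (by linear_combination h) := by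
    rw [mk_inv, mk_mul, mk_mul]
    apply mk_congr <;> ring
  rwa [h2] at h1

/-- The main computation: if the lower left entry of an element of `N` divides `1 - w ^ 2` for
a unit `w`, we obtain an upper triangular element of `N`. -/
theorem eu_mem_of_lower (hN : N.Normal) {a b c d : R} (h : a * d - b * c = 1)
    (hm : mk a b c d h ∈ N) {u w v : R} (huw : u * w = 1) (hu : u = 1 + c * v) :
    eu ((w ^ 2) ^ 2 - 1) ∈ N := by
  set t : R := d * w ^ 2 * (2 * v + c * v ^ 2) with ht
  have hct : c * t = d * (1 - w ^ 2) := by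
    rw [ht]
    have h3 : c * (2 * v + c * v ^ 2) = u ^ 2 - 1 := by rw [hu]; ring
    linear_combination (d * w ^ 2) * h3 + d * (u * w + 1) * huw
  have h1 := N.mul_mem hm (hN.conj_mem _ (N.inv_mem hm) (mk u (u * t) 0 w (by linear_combination huw)))
  rw [mk_inv, mk_inv, mk_mul, mk_mul, mk_mul] at h1
  have hC : c * ((u * d + u * t * -c) * w + (u * -b + u * t * a) * -0) +
      d * ((0 * d + w * -c) * w + (0 * -b + w * a) * -0) = 0 := by
    linear_combination c * (d - t * c) * huw - c * hct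
  have hA : a * ((u * d + u * t * -c) * w + (u * -b + u * t * a) * -0) +
      b * ((0 * d + w * -c) * w + (0 * -b + w * a) * -0) = w ^ 2 := by
    linear_combination a * (d - t * c) * huw - a * hct + w ^ 2 * h
  have h2 := eu_mem_of_upper' hN _ hC h1
  rwa [hA] at h2

/-- Multiplication of the entry by the square of a unit. -/
theorem eu_mem_sq (hN : N.Normal) {x u w : R} (huw : u * w = 1) (hx : eu x ∈ N) :
    eu (u ^ 2 * x) ∈ N := by
  have h1 := hN.conj_mem _ hx (mk u 0 0 w (by linear_combination huw))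
  have h2 : mk u 0 0 w (by linear_combination huw) * eu x *
      (mk u 0 0 w (by linear_combination huw))⁻¹ = eu (u ^ 2 * x) := by
    rw [mk_inv]
    unfold eu
    rw [mk_mul, mk_mul]
    apply mk_congr
    · linear_combination huw
    · ring
    · ring
    · linear_combination huw
  rwa [h2] at h1

/-- The lower elementary matrices. -/
theorem el_mem (hN : N.Normal) {x : R} (hx : eu x ∈ N) : el (-x) ∈ N := by
  unfold eu at hx
  have h1 := lower_left_ne hN _ hx
  have h2 : mk (1 : R) (-0) (-x) 1 (by ring) = el (-x) := by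
    unfold el
    apply mk_congr <;> ring
  rwa [h2] at h1

theorem eu_neg_mem {x : R} (hx : eu x ∈ N) : eu (-x) ∈ N := by
  rw [← eu_inv]
  exact N.inv_mem hx

/-- If the lower left entry is a unit then the matrix is a product of three elementary matrices. -/
theorem factor {a b c d : R} (h : a * d - b * c = 1) {e : R} (hce : c * e = 1) :
    mk a b c d h = eu ((a - 1) * e) * el c * eu ((d - 1) * e) := by
  unfold eu el
  rw [mk_mul, mk_mul]
  apply mk_congr
  · linear_combination (-(a - 1)) * hce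
  · linear_combination (-(a - 1) * (d - 1) * e - b) * hce - e * h
  · ring
  · linear_combination (-(d - 1)) * hce

end Ring

section Padic

variable {p : ℕ} [hp : Fact p.Prime]

theorem isUnit_one_add (x : ℤ_[p]) : IsUnit (1 + p * x) := by
  have h1 : ¬ IsUnit ((p : ℤ_[p]) * x) := by
    intro h
    exact PadicInt.p_nonunit (p := p) (isUnit_of_mul_isUnit_left h)
  by_contra h2
  have h3 := IsLocalRing.nonunits_add (a := 1 + (p : ℤ_[p]) * x) (b := -((p : ℤ_[p]) * x)) h2
    (by
      intro h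
      exact h1 (by simpa using h.neg))
  apply h3
  simp

theorem not_dvd_two (x : ℤ_[p]) : (2 : ℤ_[p]) ≠ (p : ℤ_[p]) ^ 2 * x := by
  intro h
  have h1 : ‖((2 : ℤ) : ℤ_[p])‖ ≤ (p : ℝ) ^ (-(2 : ℕ) : ℤ) := by
    rw [PadicInt.norm_le_pow_iff_mem_span_pow, Ideal.mem_span_singleton]
    exact ⟨x, by push_cast; exact h⟩
  rw [PadicInt.norm_int_le_pow_iff_dvd] at h1
  have h2 := Int.le_of_dvd (by norm_num) h1
  have h3 : (2 : ℤ) ≤ p := by exact_mod_cast hp.out.two_le
  nlinarith

/-- An element of `N` which is not `1` or `-1` gives an elementary matrix in `N`. -/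
theorem exists_eu_mem {N : Subgroup (SpecialLinearGroup (Fin 2) ℤ_[p])} (hN : N.Normal)
    {g : SpecialLinearGroup (Fin 2) ℤ_[p]} (hg : g ∈ N) (h1 : g ≠ 1) (h2 : g ≠ -1) :
    ∃ x : ℤ_[p], x ≠ 0 ∧ eu x ∈ N := by
  have key : ∀ (a b c d : ℤ_[p]) (h : a * d - b * c = 1), c ≠ 0 → mk a b c d h ∈ N →
      ∃ x : ℤ_[p], x ≠ 0 ∧ eu x ∈ N := by
    intro a b c d h hc hm
    set u : ℤ_[p] := 1 + c * p ^ 2 with hu
    have hunit : IsUnit u := by
      have : u = 1 + p * (p * c) := by rw [hu]; ring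
      rw [this]
      exact isUnit_one_add _
    obtain ⟨w, huw⟩ := hunit.exists_right_inv
    refine ⟨(w ^ 2) ^ 2 - 1, ?_, eu_mem_of_lower hN h hm huw hu⟩
    intro h3
    have h4 : u ^ 4 - 1 = 0 := by
      have h5 : (u * w) ^ 4 = 1 := by rw [huw, one_pow]
      have h6 : w ^ 4 = 1 := by linear_combination h3
      rw [mul_pow, h6, mul_one] at h5
      rw [h5, sub_self]
    have h5 : (c * p ^ 2) * (2 + c * p ^ 2) * (2 + (p : ℤ_[p]) ^ 2 * (2 * c + c ^ 2 * p ^ 2)) = 0 := by
      rw [← h4, hu]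
      ring
    have hp0 : (p : ℤ_[p]) ≠ 0 := by exact_mod_cast hp.out.ne_zero
    rcases mul_eq_zero.1 h5 with h6 | h6
    · rcases mul_eq_zero.1 h6 with h7 | h7
      · exact (mul_ne_zero hc (pow_ne_zero 2 hp0)) h7
      · exact not_dvd_two (-c) (by linear_combination h7)
    · exact not_dvd_two (-(2 * c + c ^ 2 * (p : ℤ_[p]) ^ 2)) (by linear_combination h6)
  obtain ⟨a, b, c, d, h, rfl⟩ := eq_mk g
  by_cases hc : c = 0
  · by_cases hb : b = 0
    · subst hc hb
      refine ⟨a ^ 2 - 1, ?_, eu_mem_of_upper hN h hg⟩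
      intro h3
      have h4 : (a - 1) * (a + 1) = 0 := by linear_combination h3
      rcases mul_eq_zero.1 h4 with h5 | h5
      · apply h1
        have ha : a = 1 := by linear_combination h5
        rw [mk_one]
        apply mk_congr
        · exact ha
        · rfl
        · rfl
        · rw [ha] at h
          linear_combination h
      · apply h2
        have ha : a = -1 := by linear_combination h5
        rw [mk_neg_one]
        apply mk_congr
        · exact ha
        · rfl
        · rfl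
        · rw [ha] at h
          linear_combination -h
    · exact key _ _ _ _ _ (neg_ne_zero.2 hb) (lower_left_ne hN h hg)
  · exact key _ _ _ _ h hc hg

/-- The elementary matrices in `N` contain an ideal. -/
theorem exists_ideal {N : Subgroup (SpecialLinearGroup (Fin 2) ℤ_[p])} (hN : N.Normal)
    {x : ℤ_[p]} (hx : eu x ∈ N) (r : ℤ_[p]) : eu (4 * p * x * r) ∈ N := by
  obtain ⟨w, hw⟩ := (isUnit_one_add (p := p) r).exists_right_inv
  obtain ⟨w', hw'⟩ := (isUnit_one_add (p := p) (-r)).exists_right_inv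
  have h1 := eu_mem_sq hN hw hx
  have h2 := eu_neg_mem (eu_mem_sq hN hw' hx)
  have h3 := N.mul_mem h1 h2
  rw [eu_mul] at h3
  convert h3 using 2
  ring

/-- The normal subgroups of `SL(2, ℤ_p)`. -/
theorem normal_subgroup {N : Subgroup (SpecialLinearGroup (Fin 2) ℤ_[p])} (hN : N.Normal) :
    (∀ g ∈ N, g = 1 ∨ g = -1) ∨ Finite (SpecialLinearGroup (Fin 2) ℤ_[p] ⧸ N) := by
  by_cases hall : ∀ g ∈ N, g = 1 ∨ g = -1
  · exact Or.inl hall
  right
  push Not at hall
  obtain ⟨g, hg, hg1, hg2⟩ := hall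
  obtain ⟨x, hx0, hx⟩ := exists_eu_mem hN hg hg1 hg2
  set y : ℤ_[p] := 4 * p * x with hy
  have hp0 : (p : ℤ_[p]) ≠ 0 := by exact_mod_cast hp.out.ne_zero
  have hy0 : y ≠ 0 := mul_ne_zero (mul_ne_zero (by norm_num) hp0) hx0
  have hyr : ∀ r, eu (y * r) ∈ N := fun r => exists_ideal hN hx r
  have hlr : ∀ r, el (y * r) ∈ N := by
    intro r
    have := el_mem hN (hyr (-r))
    rwa [show -(y * -r) = y * r by ring] at this
  -- every `r` is a natural number below `p ^ n` plus a multiple of `y`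
  obtain ⟨n, hn⟩ : ∃ n : ℕ, ∀ r : ℤ_[p], ∃ k : Fin (p ^ n), ∃ s, r = (k : ℕ) + y * s := by
    refine ⟨y.valuation, fun r => ?_⟩
    have h1 := PadicInt.appr_spec y.valuation r
    rw [Ideal.mem_span_singleton] at h1
    obtain ⟨s, hs⟩ := h1
    obtain ⟨v, hv⟩ : ∃ v : (ℤ_[p])ˣ, y = v * (p : ℤ_[p]) ^ y.valuation :=
      ⟨_, PadicInt.unitCoeff_spec hy0⟩
    generalize y.valuation = m at hs hv ⊢
    refine ⟨⟨r.appr m, PadicInt.appr_lt r _⟩, (v⁻¹ : (ℤ_[p])ˣ) * s, ?_⟩
    have h3 : (v : ℤ_[p]) * ((v⁻¹ : (ℤ_[p])ˣ) : ℤ_[p]) = 1 := Units.mul_inv _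
    simp only
    rw [hv]
    linear_combination hs - (p : ℤ_[p]) ^ m * s * h3
  have hmk : ∀ g h : SpecialLinearGroup (Fin 2) ℤ_[p], h ∈ N →
      (QuotientGroup.mk (g * h) : SpecialLinearGroup (Fin 2) ℤ_[p] ⧸ N) = QuotientGroup.mk g := by
    intro g h hh
    rw [QuotientGroup.eq]
    simpa using N.inv_mem hh
  let f : Bool × Fin (p ^ n) × Fin (p ^ n) × Fin (p ^ n) →
      SpecialLinearGroup (Fin 2) ℤ_[p] ⧸ N := fun q =>
    (QuotientGroup.mk (el (if q.1 then -1 else 0) : SpecialLinearGroup (Fin 2) ℤ_[p]) :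
        SpecialLinearGroup (Fin 2) ℤ_[p] ⧸ N) *
      (QuotientGroup.mk (eu ((q.2.1 : ℕ) : ℤ_[p]))) *
      (QuotientGroup.mk (el ((q.2.2.1 : ℕ) : ℤ_[p]))) *
      (QuotientGroup.mk (eu ((q.2.2.2 : ℕ) : ℤ_[p])))
  have hf : Function.Surjective f := by
    intro z
    obtain ⟨g, rfl⟩ := QuotientGroup.mk_surjective z
    have main : ∀ (β : Bool) (a b c d : ℤ_[p]) (h : a * d - b * c = 1), IsUnit c →
        g = el (if β then -1 else 0) * mk a b c d h → ∃ q, f q = QuotientGroup.mk g := by
      intro β a b c d h hc hgeq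
      obtain ⟨e, he⟩ := hc.exists_right_inv
      obtain ⟨k1, s1, h1⟩ := hn ((a - 1) * e)
      obtain ⟨k2, s2, h2⟩ := hn c
      obtain ⟨k3, s3, h3⟩ := hn ((d - 1) * e)
      refine ⟨(β, k1, k2, k3), ?_⟩
      have e1 : (QuotientGroup.mk (eu ((a - 1) * e)) : SpecialLinearGroup (Fin 2) ℤ_[p] ⧸ N) =
          QuotientGroup.mk (eu ((k1 : ℕ) : ℤ_[p])) := by
        rw [h1, ← eu_mul]
        exact hmk _ _ (hyr _)
      have e2 : (QuotientGroup.mk (el c) : SpecialLinearGroup (Fin 2) ℤ_[p] ⧸ N) =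
          QuotientGroup.mk (el ((k2 : ℕ) : ℤ_[p])) := by
        conv_lhs => rw [h2, ← el_mul]
        exact hmk _ _ (hlr _)
      have e3 : (QuotientGroup.mk (eu ((d - 1) * e)) : SpecialLinearGroup (Fin 2) ℤ_[p] ⧸ N) =
          QuotientGroup.mk (eu ((k3 : ℕ) : ℤ_[p])) := by
        rw [h3, ← eu_mul]
        exact hmk _ _ (hyr _)
      rw [hgeq, factor h he, QuotientGroup.mk_mul, QuotientGroup.mk_mul, QuotientGroup.mk_mul,
        e1, e2, e3, ← mul_assoc, ← mul_assoc]
    obtain ⟨a, b, c, d, h, rfl⟩ := eq_mk g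
    by_cases hc : IsUnit c
    · obtain ⟨q, hq⟩ := main false a b c d h hc (by
        unfold el
        rw [mk_mul]
        apply mk_congr <;> simp)
      exact ⟨q, hq⟩
    · have hca : IsUnit (a + c) := by
        by_contra h2
        have h3 : c ∈ IsLocalRing.maximalIdeal ℤ_[p] := hc
        have h4 : a + c ∈ IsLocalRing.maximalIdeal ℤ_[p] := h2
        have h5 : a ∈ IsLocalRing.maximalIdeal ℤ_[p] := by
          have := Ideal.sub_mem _ h4 h3
          rwa [add_sub_cancel_right] at this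
        have h6 : (1 : ℤ_[p]) ∈ IsLocalRing.maximalIdeal ℤ_[p] := by
          rw [← h]
          exact Ideal.sub_mem _ (Ideal.mul_mem_right _ _ h5) (Ideal.mul_mem_left _ _ h3)
        exact h6 isUnit_one
      obtain ⟨q, hq⟩ := main true a b (a + c) (b + d) (by linear_combination h) hca (by
        unfold el
        rw [mk_mul]
        apply mk_congr <;> simp)
      exact ⟨q, hq⟩
  exact Finite.of_surjective f hf

theorem isCompact_sl : CompactSpace (SpecialLinearGroup (Fin 2) ℤ_[p]) := by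
  have : CompactSpace (Matrix (Fin 2) (Fin 2) ℤ_[p]) :=
    inferInstanceAs (CompactSpace (Fin 2 → Fin 2 → ℤ_[p]))
  exact Matrix.SpecialLinearGroup.isClosedEmbedding_val.compactSpace

theorem totallyDisconnected_sl : TotallyDisconnectedSpace (SpecialLinearGroup (Fin 2) ℤ_[p]) := by
  have : TotallyDisconnectedSpace (Matrix (Fin 2) (Fin 2) ℤ_[p]) :=
    inferInstanceAs (TotallyDisconnectedSpace (Fin 2 → Fin 2 → ℤ_[p]))
  exact inferInstanceAs (TotallyDisconnectedSpace (Subtype _))

theorem metrizable_sl : TopologicalSpace.MetrizableSpace (SpecialLinearGroup (Fin 2) ℤ_[p]) := by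
  have : TopologicalSpace.MetrizableSpace (Matrix (Fin 2) (Fin 2) ℤ_[p]) :=
    inferInstanceAs (TopologicalSpace.MetrizableSpace (Fin 2 → Fin 2 → ℤ_[p]))
  exact Matrix.SpecialLinearGroup.isClosedEmbedding_val.isEmbedding.metrizableSpace

theorem nonarch_sl : NonarchimedeanGroup (SpecialLinearGroup (Fin 2) ℤ_[p]) := by
  have := isCompact_sl (p := p)
  have := totallyDisconnected_sl (p := p)
  refine { is_nonarchimedean := fun U hU => ?_ }
  obtain ⟨V, hVU, hV, h1⟩ := mem_nhds_iff.1 hU
  obtain ⟨H, hH⟩ := ProfiniteGrp.exist_openNormalSubgroup_sub_open_nhds_of_one hV h1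
  exact ⟨H.toOpenSubgroup, hH.trans hVU⟩

theorem uncountable_sl : Uncountable (SpecialLinearGroup (Fin 2) ℤ_[p]) := by
  have h1 : Function.Injective (eu : ℤ_[p] → SpecialLinearGroup (Fin 2) ℤ_[p]) := by
    intro x y h
    have := congrArg (fun g : SpecialLinearGroup (Fin 2) ℤ_[p] => g.1 0 1) h
    simpa [eu, mk] using this
  have h2 : Uncountable ℤ_[p] := by
    have h3 : IsOpen (Metric.closedBall (0 : ℚ_[p]) 1) :=
      IsUltrametricDist.isOpen_closedBall _ one_ne_zero
    have h4 := continuum_le_cardinal_of_isOpen ℚ_[p] h3 ⟨0, by simp⟩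
    have h5 : Uncountable (Metric.closedBall (0 : ℚ_[p]) 1) := by
      rw [← Cardinal.aleph0_lt_mk_iff]
      exact Cardinal.aleph0_lt_continuum.trans_le h4
    have h6 : Function.Injective
        (fun x : Metric.closedBall (0 : ℚ_[p]) 1 => (⟨x.1, mem_closedBall_zero_iff.1 x.2⟩ : ℤ_[p])) := by
      intro x y h
      apply Subtype.ext
      exact congrArg (fun z : ℤ_[p] => (z : ℚ_[p])) h
    exact h6.uncountable
  exact h1.uncountable

/-- For every prime `p` the group `SL(2, ℤ_p)` is an uncountable compact metrizable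
non-archimedean group, and each of its normal subgroups is contained in `{1, -1}` or has finite
index. In particular it has no uncountable normal subgroup of uncountable index. -/
theorem result (p : ℕ) [Fact p.Prime] :
    (CompactSpace (SpecialLinearGroup (Fin 2) ℤ_[p]) ∧
      TopologicalSpace.MetrizableSpace (SpecialLinearGroup (Fin 2) ℤ_[p]) ∧
      NonarchimedeanGroup (SpecialLinearGroup (Fin 2) ℤ_[p]) ∧
      Uncountable (SpecialLinearGroup (Fin 2) ℤ_[p])) ∧
    (∀ N : Subgroup (SpecialLinearGroup (Fin 2) ℤ_[p]), N.Normal →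
      (∀ g ∈ N, g = 1 ∨ g = -1) ∨ Finite (SpecialLinearGroup (Fin 2) ℤ_[p] ⧸ N)) ∧
    ¬ ∃ N : Subgroup (SpecialLinearGroup (Fin 2) ℤ_[p]), N.Normal ∧ Uncountable N ∧
      Uncountable (SpecialLinearGroup (Fin 2) ℤ_[p] ⧸ N) := by
  refine ⟨⟨isCompact_sl, metrizable_sl, nonarch_sl, uncountable_sl⟩,
    fun N hN => normal_subgroup hN, ?_⟩
  rintro ⟨N, hN, h1, h2⟩
  rcases normal_subgroup hN with h3 | h3
  · have h4 : (N : Set (SpecialLinearGroup (Fin 2) ℤ_[p])) ⊆ {1, -1} := by
      intro g hg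
      rcases h3 g hg with h5 | h5
      · exact Or.inl h5
      · exact Or.inr h5
    have h5 : Finite N := ((Set.toFinite _).subset h4).to_subtype
    exact not_countable (α := N) inferInstance
  · exact not_countable (α := SpecialLinearGroup (Fin 2) ℤ_[p] ⧸ N) inferInstance

end Padic

end Pool.Agent.Results.MP_847604_al.SpecialLinearPadic
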